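import Pool.Agent.Y40.MA.Main

/-!
Martin's axiom implies that in every uncountable Polish space the countably perfectly null sets are
not all the countably perfectly meager universally null sets. For a Polish space `X` the equality
`PN_σ = PM_σ ∩ UN` holds under Martin's axiom if and only if `X` is countable. Martin's axiom follows
from the continuum hypothesis, and it is consistent with a large continuum.
-/

set_option autoImplicit false

open Set Filter Topology MeasureTheory Cardinal

namespace Pool.Agent.Results.MP_2087e7_lc.MartinAxiomCase

open Pool.Agent.H341Q.PN Pool.Agent.Y40.MA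

universe u

theorem fsig_of_countable {X : Type u} [TopologicalSpace X] [T1Space X] {A : Set X}
    (hA : A.Countable) : IsFsig A := by
  rcases A.eq_empty_or_nonempty with rfl | hne
  · exact ⟨fun _ => ∅, fun _ => isClosed_empty, by simp⟩
  · obtain ⟨e, he⟩ := hA.exists_eq_range hne
    refine ⟨fun n => {e n}, fun _ => isClosed_singleton, ?_⟩
    rw [he]
    ext x
    simp [eq_comm]

/-- A nonempty perfect Polish space is uncountable. -/
theorem not_countable {X : Type u} [TopologicalSpace X] [PolishSpace X] [PerfectSpace X]
    [Nonempty X] : ¬ (Set.univ : Set X).Countable := by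
  intro h
  obtain ⟨φ, hφ⟩ := exists_copy (X := X)
  have h1 : (Set.univ : Set Cs).Countable := (h.preimage hφ.injective).mono (subset_univ _)
  have h2 := Cardinal.le_aleph0_iff_set_countable.2 h1
  rw [Cardinal.mk_univ] at h2
  have h3 : #Cs = 𝔠 := by simp
  rw [h3] at h2
  exact absurd h2 (not_le.2 Cardinal.aleph0_lt_continuum)

/-- **The equality `PN_σ = PM_σ ∩ UN` under Martin's axiom.**

Assume Martin's axiom and let `X` be a Polish space.

* Every uncountable Borel subset of `X` contains a countably perfectly meager and universally null
  set that is not countably perfectly null in `X`.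
* If `X` is nonempty and perfect, then `X` contains such a set.
* In `X` the countably perfectly null sets are exactly the countably perfectly meager universally
  null sets if and only if `X` is countable.

The continuum hypothesis implies Martin's axiom. -/
theorem result :
    (MartinAxiom → ∀ (X : Type u) [TopologicalSpace X] [PolishSpace X] [MeasurableSpace X]
      [BorelSpace X],
      (∀ B : Set X, MeasurableSet B → ¬ B.Countable →
        ∃ A : Set X, A ⊆ B ∧ CountablyPerfectlyMeager A ∧ UniversallyNull A ∧
          ¬ CountablyPerfectlyNull A) ∧
      (PerfectSpace X → Nonempty X →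
        ∃ A : Set X, CountablyPerfectlyMeager A ∧ UniversallyNull A ∧
          ¬ CountablyPerfectlyNull A) ∧
      ((∀ A : Set X, CountablyPerfectlyNull A ↔ CountablyPerfectlyMeager A ∧ UniversallyNull A) ↔
        Countable X)) ∧
    ((𝔠 : Cardinal.{0}) = ℵ₁ → MartinAxiom) := by
  refine ⟨fun ma X _ _ _ _ => ⟨exists_general_ma ma, ?_, ?_, ?_⟩, martin_of_ch⟩
  · intro _ _
    obtain ⟨A, _, h⟩ := exists_general_ma ma (Set.univ : Set X) MeasurableSet.univ not_countable
    exact ⟨A, h⟩
  · intro hall
    by_contra hunc
    obtain ⟨A, _, h1, h2, h3⟩ := exists_general_ma ma (Set.univ : Set X) MeasurableSet.univ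
      (fun h => hunc (Set.countable_univ_iff.1 h))
    exact h3 ((hall A).2 ⟨h1, h2⟩)
  · intro hcX A
    have hA : A.Countable := Set.to_countable A
    refine ⟨fun _ => ⟨?_, ?_⟩, fun _ => ?_⟩
    · intro P hP
      exact ⟨A, fsig_of_countable hA, Subset.rfl, fun n => isMeagre_of_countable (hP n) hA⟩
    · intro μ _ hna
      have : NullSingletonClass μ := ⟨hna⟩
      exact hA.measure_zero μ
    · intro μ _ hna
      have : NullSingletonClass μ := ⟨hna⟩
      exact ⟨A, fsig_of_countable hA, Subset.rfl, hA.measure_zero μ⟩

end Pool.Agent.Results.MP_2087e7_lc.MartinAxiomCase
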